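import Mathlib
import Pool.Agent.H786.G.R_pool_sql_team_seeded_63374d34.N535.Defs

set_option autoImplicit false
open scoped ContDiff Manifold Topology Matrix RealInnerProductSpace
open Set
open Pool.Agent.N535

namespace Pool.Agent.N99.RF3

/-- image of a tangent vector of the sphere in the ambient space -/
noncomputable def emb (p : S3) (u : TangentSpace (𝓡 3) p) : E4 :=
  mfderiv (𝓡 3) 𝓘(ℝ, E4) (fun q : S3 => (q : E4)) p u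

lemma rsq_def (p : S3) (u : TangentSpace (𝓡 3) p) : rsq p u = ‖emb p u‖ ^ 2 := rfl

lemma emb_zero (p : S3) : emb p 0 = 0 :=
  map_zero (mfderiv (𝓡 3) 𝓘(ℝ, E4) (fun q : S3 => (q : E4)) p)

lemma mdiff_coe (p : S3) : MDifferentiableAt (𝓡 3) 𝓘(ℝ, E4) (fun q : S3 => (q : E4)) p :=
  (contMDiff_coe_sphere (m := 1) (n := 3) (E := E4)).mdifferentiableAt (by norm_num)

lemma hasDerivAt_coe {ψ : ℝ → S3} {s : ℝ} (hψ : MDifferentiableAt 𝓘(ℝ, ℝ) (𝓡 3) ψ s) :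
    HasDerivAt (fun t => (ψ t : E4)) (emb (ψ s) (mfderiv 𝓘(ℝ, ℝ) (𝓡 3) ψ s (1 : ℝ))) s := by
  have h1 := (mdiff_coe (ψ s)).hasMFDerivAt.comp s hψ.hasMFDerivAt
  have h2 := hasMFDerivAt_iff_hasFDerivAt.mp h1
  obtain ⟨L, hL⟩ : ∃ L : ℝ →L[ℝ] E4, L =
      (mfderiv (𝓡 3) 𝓘(ℝ, E4) (fun q : S3 => (q : E4)) (ψ s)).comp
        (mfderiv 𝓘(ℝ, ℝ) (𝓡 3) ψ s) := ⟨_, rfl⟩
  have h3 : HasFDerivAt (fun t => (ψ t : E4)) L s := by rw [hL]; exact h2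
  have h4 := h3.hasDerivAt
  rw [hL] at h4
  exact h4

lemma curve_ineq {h : ℝ → ℝ} {ε : ℝ} (φ : S3 ≃ₘ^∞⟮𝓡 3, 𝓡 3⟯ S3)
    (hyp : ∀ (p : S3) (u : TangentSpace (𝓡 3) p), u ≠ 0 →
      |h ((φ p : E4) 0) ^ 2 * rsq (φ p) (mfderiv (𝓡 3) (𝓡 3) φ p u) - rsq p u| < ε * rsq p u)
    {ψ : ℝ → S3} {s : ℝ} (hψ : MDifferentiableAt 𝓘(ℝ, ℝ) (𝓡 3) ψ s) {v w : E4}
    (hv : HasDerivAt (fun t => (ψ t : E4)) v s)
    (hw : HasDerivAt (fun t => (φ (ψ t) : E4)) w s) :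
    |h ((φ (ψ s) : E4) 0) ^ 2 * ‖w‖ ^ 2 - ‖v‖ ^ 2| ≤ ε * ‖v‖ ^ 2 := by
  have hφ : MDifferentiableAt (𝓡 3) (𝓡 3) φ (ψ s) := φ.contMDiff.mdifferentiableAt (by norm_num)
  have hc : MDifferentiableAt 𝓘(ℝ, ℝ) (𝓡 3) (fun t => φ (ψ t)) s := hφ.comp s hψ
  have e1 := hv.unique (hasDerivAt_coe hψ)
  have e2 := hw.unique (hasDerivAt_coe hc)
  have e3 : mfderiv 𝓘(ℝ, ℝ) (𝓡 3) (fun t => φ (ψ t)) s (1 : ℝ) =
      mfderiv (𝓡 3) (𝓡 3) φ (ψ s) (mfderiv 𝓘(ℝ, ℝ) (𝓡 3) ψ s (1 : ℝ)) := by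
    have := mfderiv_comp s hφ hψ
    change mfderiv 𝓘(ℝ, ℝ) (𝓡 3) (φ ∘ ψ) s (1 : ℝ) = _
    rw [this]
    rfl
  rw [e3] at e2
  by_cases hT : (mfderiv 𝓘(ℝ, ℝ) (𝓡 3) ψ s (1 : ℝ) : TangentSpace (𝓡 3) (ψ s)) = 0
  · rw [hT] at e2 e1
    have hv0 : v = 0 := by
      rw [e1]; exact emb_zero _
    have hw0 : w = 0 := by
      rw [e2, map_zero]
      exact emb_zero _
    rw [hv0, hw0]; simp
  · have h4 := hyp (ψ s) _ hT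
    rw [rsq_def, rsq_def, ← e2, ← e1] at h4
    exact h4.le

end Pool.Agent.N99.RF3
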