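import Mathlib
import Pool.Agent.H786.G.R_seed8.GR.Flow

set_option autoImplicit false
open scoped ContDiff Topology
open Set

namespace Pool.Agent.N99.RF3

/-- `(e^z - 1) / z` -/
noncomputable def ec (x : ℝ) : ℝ := (dslope Complex.exp 0 (x : ℂ)).re

theorem ec_mul (x : ℝ) : x * ec x = Real.exp x - 1 := by
  have h := sub_smul_dslope Complex.exp 0 (x : ℂ)
  rw [sub_zero, Complex.exp_zero, smul_eq_mul] at h
  have h2 := congrArg Complex.re h
  rw [Complex.re_ofReal_mul, ← Complex.ofReal_exp, Complex.sub_re, Complex.ofReal_re,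
    Complex.one_re] at h2
  exact h2

theorem contDiff_ec : ContDiff ℝ ∞ ec := by
  have h1 : Differentiable ℂ (dslope Complex.exp 0) := by
    rw [← differentiableOn_univ]
    rw [Complex.differentiableOn_dslope Filter.univ_mem]
    exact Complex.differentiable_exp.differentiableOn
  have h2 : ContDiff ℂ ∞ (dslope Complex.exp 0) := h1.contDiff
  have h3 : ContDiff ℝ ∞ (dslope Complex.exp 0) := h2.restrict_scalars ℝ
  exact Complex.reCLM.contDiff.comp (h3.comp Complex.ofRealCLM.contDiff)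

abbrev R4 : Type := ℝ × ℝ × ℝ × ℝ

lemma lip_bdd {f : ℝ × ℝ → ℝ} (hf : ContDiff ℝ ∞ f) (hc : HasCompactSupport f) :
    ∃ (K M : NNReal), LipschitzWith K f ∧ ∀ x, ‖f x‖ ≤ M := by
  obtain ⟨K, hK⟩ := hf.lipschitzWith_of_hasCompactSupport hc (by simp)
  obtain ⟨M, hM⟩ := hc.exists_bound_of_continuous hf.continuous
  exact ⟨K, Real.toNNReal M, hK, fun x => (hM x).trans (Real.le_coe_toNNReal M)⟩

lemma lip_bdd3 {f : ℝ × ℝ × ℝ → ℝ} (hf : ContDiff ℝ ∞ f) (hc : HasCompactSupport f) :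
    ∃ (K M : NNReal), LipschitzWith K f ∧ ∀ x, ‖f x‖ ≤ M := by
  obtain ⟨K, hK⟩ := hf.lipschitzWith_of_hasCompactSupport hc (by simp)
  obtain ⟨M, hM⟩ := hc.exists_bound_of_continuous hf.continuous
  exact ⟨K, Real.toNNReal M, hK, fun x => (hM x).trans (Real.le_coe_toNNReal M)⟩

theorem flow4 {W P S : ℝ × ℝ → ℝ} {ψ : ℝ → ℝ} (hW : ContDiff ℝ ∞ W) (hP : ContDiff ℝ ∞ P)
    (hS : ContDiff ℝ ∞ S) (hψ : ContDiff ℝ ∞ ψ) (cW : HasCompactSupport W)
    (cP : HasCompactSupport P) (cS : HasCompactSupport S) (cψ : HasCompactSupport ψ) (t₀ : ℝ) :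
    ∃ Y Q L : ℝ × ℝ → ℝ, ContDiff ℝ ∞ Y ∧ ContDiff ℝ ∞ Q ∧ ContDiff ℝ ∞ L ∧
      (∀ x, Y (t₀, x) = x ∧ Q (t₀, x) = 0 ∧ L (t₀, x) = 0) ∧
      ∀ t x, HasDerivAt (fun s => Y (s, x)) (W (t, Y (t, x))) t ∧
        HasDerivAt (fun s => Q (s, x)) (P (t, Y (t, x))) t ∧
        HasDerivAt (fun s => L (s, x)) (S (t, Y (t, x)) * ψ (Q (t, x))) t := by
  -- the product S ψ as a function on ℝ × ℝ × ℝ
  set T3 : ℝ × ℝ × ℝ → ℝ := fun p => S (p.1, p.2.1) * ψ p.2.2 with hT3
  have hT : ContDiff ℝ ∞ T3 :=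
    (hS.comp (contDiff_fst.prodMk (contDiff_fst.comp contDiff_snd))).mul
      (hψ.comp (contDiff_snd.comp contDiff_snd))
  have cT : HasCompactSupport T3 := by
    have hK : IsCompact ((fun p : (ℝ × ℝ) × ℝ => ((p.1.1, p.1.2, p.2) : ℝ × ℝ × ℝ)) ''
        (tsupport S ×ˢ tsupport ψ)) :=
      (cS.isCompact.prod cψ.isCompact).image (by fun_prop)
    refine HasCompactSupport.of_support_subset_isCompact hK ?_
    intro p hp
    have hp' : S (p.1, p.2.1) * ψ p.2.2 ≠ 0 := hp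
    refine ⟨((p.1, p.2.1), p.2.2), ⟨?_, ?_⟩, rfl⟩
    · exact subset_tsupport _ (left_ne_zero_of_mul hp')
    · exact subset_tsupport _ (right_ne_zero_of_mul hp')
  obtain ⟨K1, M1, l1, b1⟩ := lip_bdd hW cW
  obtain ⟨K2, M2, l2, b2⟩ := lip_bdd hP cP
  obtain ⟨K3, M3, l3, b3⟩ := lip_bdd3 hT cT
  have pr2 : LipschitzWith 1 (fun p : R4 => ((p.1, p.2.1) : ℝ × ℝ)) := by
    have := (LipschitzWith.prod_fst (α := ℝ) (β := ℝ × ℝ × ℝ)).prodMk
      ((LipschitzWith.prod_fst (α := ℝ) (β := ℝ × ℝ)).comp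
        (LipschitzWith.prod_snd (α := ℝ) (β := ℝ × ℝ × ℝ)))
    simpa using this
  have pr3 : LipschitzWith 1 (fun p : R4 => ((p.1, p.2.1, p.2.2.1) : ℝ × ℝ × ℝ)) := by
    have := (LipschitzWith.prod_fst (α := ℝ) (β := ℝ × ℝ × ℝ)).prodMk
      (((LipschitzWith.prod_fst (α := ℝ) (β := ℝ × ℝ)).comp
        (LipschitzWith.prod_snd (α := ℝ) (β := ℝ × ℝ × ℝ))).prodMk
        ((LipschitzWith.prod_fst (α := ℝ) (β := ℝ)).comp
          ((LipschitzWith.prod_snd (α := ℝ) (β := ℝ × ℝ)).comp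
            (LipschitzWith.prod_snd (α := ℝ) (β := ℝ × ℝ × ℝ)))))
    simpa using this
  set X : R4 → R4 := fun p => (1, W (p.1, p.2.1), P (p.1, p.2.1), T3 (p.1, p.2.1, p.2.2.1)) with hX
  have hXs : ContDiff ℝ ∞ X := by
    refine contDiff_const.prodMk ((hW.comp ?_).prodMk ((hP.comp ?_).prodMk (hT.comp ?_)))
    · fun_prop
    · fun_prop
    · fun_prop
  obtain ⟨K, hK⟩ : ∃ K : NNReal, LipschitzWith K X :=
    ⟨_, (LipschitzWith.const (1 : ℝ)).prodMk ((l1.comp pr2).prodMk ((l2.comp pr2).prodMk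
      (l3.comp pr3)))⟩
  have hM' : ∀ x, ‖X x‖ ≤ (max 1 (max M1 (max M2 M3)) : NNReal) := by
    intro x
    simp only [hX, norm_prod_le_iff, norm_one]
    push_cast
    refine ⟨?_, ?_, ?_, ?_⟩
    · exact le_max_left _ _
    · exact (b1 _).trans ((le_max_left _ _).trans (le_max_right _ _))
    · exact (b2 _).trans ((le_max_left _ _).trans ((le_max_right _ _).trans (le_max_right _ _)))
    · exact (b3 _).trans ((le_max_right _ _).trans ((le_max_right _ _).trans (le_max_right _ _)))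
  choose g h0 h1 using fun p => Pool.Agent.GR.Flow.exists_solution hK hM' p
  have hfl : Pool.Agent.GR.Flow.IsFlowOf X (fun t p => g p t) := ⟨h0, h1⟩
  have hG : ContDiff ℝ ∞ (fun q : ℝ × R4 => g q.2 q.1) := by
    rw [contDiff_infty]
    intro m
    have key : ∀ m : ℕ, m ≠ 0 → ContDiff ℝ m (fun q : ℝ × R4 => g q.2 q.1) := by
      intro m hm
      exact Pool.Agent.GR.Flow.contDiff_flow (X := ⟨X, hXs.continuous⟩) hm
        (hXs.of_le (by exact_mod_cast le_top)) hK hfl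
    exact (key (m + 1) (by omega)).of_le (by exact_mod_cast Nat.le_succ m)
  set F : ℝ × ℝ → R4 := fun p => g (t₀, p.2, 0, 0) (p.1 - t₀) with hF
  have hFs : ContDiff ℝ ∞ F := by
    have : ContDiff ℝ ∞ (fun p : ℝ × ℝ => ((p.1 - t₀, (t₀, p.2, 0, 0)) : ℝ × R4)) := by fun_prop
    exact hG.comp this
  have hFd : ∀ t x, HasDerivAt (fun s => F (s, x)) (X (F (t, x))) t := by
    intro t x
    have h2 := (h1 (t₀, x, 0, 0) (t - t₀)).scomp t ((hasDerivAt_id t).sub_const t₀)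
    rw [one_smul] at h2
    exact h2
  have hF0 : ∀ x, F (t₀, x) = (t₀, x, 0, 0) := by
    intro x
    simp only [hF, sub_self, h0]
  have d1 : ∀ t x, HasDerivAt (fun s => (F (s, x)).1) 1 t := fun t x => (hFd t x).fst
  have f1 : ∀ t x, (F (t, x)).1 = t := by
    intro t x
    have h2 : ∀ s, HasDerivAt (fun s => (F (s, x)).1 - s) (1 - 1) s := fun s =>
      (d1 s x).sub (hasDerivAt_id s)
    have h3 : (F (t, x)).1 - t = (F (t₀, x)).1 - t₀ := by
      refine is_const_of_deriv_eq_zero (f := fun s => (F (s, x)).1 - s)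
        (fun s => (h2 s).differentiableAt) (fun s => ?_) t t₀
      rw [(h2 s).deriv]; norm_num
    rw [hF0] at h3
    simp at h3
    linarith
  refine ⟨fun p => (F p).2.1, fun p => (F p).2.2.1, fun p => (F p).2.2.2, ?_, ?_, ?_, ?_, ?_⟩
  · exact contDiff_fst.comp (contDiff_snd.comp hFs)
  · exact contDiff_fst.comp (contDiff_snd.comp (contDiff_snd.comp hFs))
  · exact contDiff_snd.comp (contDiff_snd.comp (contDiff_snd.comp hFs))
  · intro x
    simp only [hF0]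
    exact ⟨trivial, trivial, trivial⟩
  · intro t x
    have h2 := hFd t x
    refine ⟨?_, ?_, ?_⟩
    · have h3 := h2.snd.fst
      simp only [hX, f1] at h3
      exact h3
    · have h3 := h2.snd.snd.fst
      simp only [hX, f1] at h3
      exact h3
    · have h3 := h2.snd.snd.snd
      simp only [hX, hT3, f1] at h3
      exact h3

end Pool.Agent.N99.RF3
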