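import Mathlib
import Pool.Agent.H786.G.R_pool_sql_team_seeded_63374d34.N99.RF3.GaugeA

set_option autoImplicit false
open scoped ContDiff Topology Manifold
open Set

namespace Pool.Agent.N99.RF3

theorem cutoff_mul {E : Type} [NormedAddCommGroup E] [NormedSpace ℝ E] [FiniteDimensional ℝ E]
    {K Ω : Set E} (hK : IsCompact K) (hΩ : IsOpen Ω) (hKΩ : K ⊆ Ω) {ζ : E → ℝ}
    (hζ : ContDiffOn ℝ ∞ ζ Ω) :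
    ∃ Z : E → ℝ, ContDiff ℝ ∞ Z ∧ HasCompactSupport Z ∧ ∀ p ∈ K, Z =ᶠ[𝓝 p] ζ := by
  obtain ⟨K', hK', h1, h2⟩ := exists_compact_between hK hΩ hKΩ
  obtain ⟨χ, c1, c2, -⟩ := exists_contMDiffMap_one_nhds_of_subset_interior (n := (⊤ : ℕ∞)) 𝓘(ℝ, E)
    hK.isClosed h1
  have hχ : ContDiff ℝ ∞ χ := χ.contMDiff.contDiff
  refine ⟨fun p => χ p * ζ p, ?_, ?_, ?_⟩
  · rw [contDiff_iff_contDiffAt]
    intro p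
    by_cases hp : p ∈ Ω
    · exact hχ.contDiffAt.mul (hζ.contDiffAt (hΩ.mem_nhds hp))
    · have h3 : (fun p => χ p * ζ p) =ᶠ[𝓝 p] fun _ => (0 : ℝ) := by
        have : K'ᶜ ∈ 𝓝 p := hK'.isClosed.isOpen_compl.mem_nhds fun h => hp (h2 h)
        filter_upwards [this] with q hq
        rw [c2 q hq, zero_mul]
      exact (contDiffAt_const (c := (0 : ℝ))).congr_of_eventuallyEq h3
  · refine HasCompactSupport.intro hK' fun q hq => ?_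
    rw [c2 q hq, zero_mul]
  · intro p hp
    have h3 := (eventually_nhdsSet_iff_forall.1 c1) p hp
    filter_upwards [h3] with q hq
    rw [hq, one_mul]

theorem idA (y V p w I0 m m1 : ℝ) (hV : V ≠ 0) (hu : 1 - y ^ 2 ≠ 0) (hm : m ≠ 0)
    (Vt Yt F0 F1 F2 E0 E1 KR KF : ℝ)
    (hVt : Vt = V ^ 2 * ((1 - y ^ 2) * w - 3 * y * p) - V * ((1 - y ^ 2) * p ^ 2) + 2 * V ^ 3
      - I0 * (y * V + (1 - y ^ 2) * p))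
    (hYt : Yt = (-(V * p) + I0) * (1 - y ^ 2))
    (hF0 : F0 = (1 - y ^ 2) / V ^ 2)
    (hF1 : F1 = (-2 * y / V ^ 2 - 2 * (1 - y ^ 2) * p / V ^ 3) * m)
    (hF2 : F2 = (-2 / V ^ 2 + 8 * y * p / V ^ 3 - 2 * (1 - y ^ 2) * w / V ^ 3
      + 6 * (1 - y ^ 2) * p ^ 2 / V ^ 4) * m ^ 2
      + (-2 * y / V ^ 2 - 2 * (1 - y ^ 2) * p / V ^ 3) * m1)
    (hE0 : E0 = m ^ 2 / (V ^ 2 * (1 - y ^ 2)))
    (hE1 : E1 = 2 * m * m1 / (V ^ 2 * (1 - y ^ 2)) - 2 * m ^ 3 * p / (V ^ 3 * (1 - y ^ 2))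
      + 2 * y * m ^ 3 / (V ^ 2 * (1 - y ^ 2) ^ 2))
    (hKR : KR = -(F2 / (2 * F0) - F1 ^ 2 / (4 * F0 ^ 2) - F1 * E1 / (4 * F0 * E0)) / E0)
    (hKF : KF = 1 / F0 - F1 ^ 2 / (4 * F0 ^ 2 * E0)) :
    -2 * y * Yt / V ^ 2 - 2 * (1 - y ^ 2) * (Vt + p * Yt) / V ^ 3 = -2 * (KR + KF) * F0 := by
  subst hKR hKF hF0 hF1 hF2 hE0 hE1 hVt hYt
  field_simp
  ring_nf

theorem idB (y V p w I0 m m1 : ℝ) (hV : V ≠ 0) (hu : 1 - y ^ 2 ≠ 0) (hm : m ≠ 0)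
    (Vt Yt F0 F1 F2 E0 E1 KR : ℝ)
    (hVt : Vt = V ^ 2 * ((1 - y ^ 2) * w - 3 * y * p) - V * ((1 - y ^ 2) * p ^ 2) + 2 * V ^ 3
      - I0 * (y * V + (1 - y ^ 2) * p))
    (hYt : Yt = (-(V * p) + I0) * (1 - y ^ 2))
    (hF0 : F0 = (1 - y ^ 2) / V ^ 2)
    (hF1 : F1 = (-2 * y / V ^ 2 - 2 * (1 - y ^ 2) * p / V ^ 3) * m)
    (hF2 : F2 = (-2 / V ^ 2 + 8 * y * p / V ^ 3 - 2 * (1 - y ^ 2) * w / V ^ 3
      + 6 * (1 - y ^ 2) * p ^ 2 / V ^ 4) * m ^ 2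
      + (-2 * y / V ^ 2 - 2 * (1 - y ^ 2) * p / V ^ 3) * m1)
    (hE0 : E0 = m ^ 2 / (V ^ 2 * (1 - y ^ 2)))
    (hE1 : E1 = 2 * m * m1 / (V ^ 2 * (1 - y ^ 2)) - 2 * m ^ 3 * p / (V ^ 3 * (1 - y ^ 2))
      + 2 * y * m ^ 3 / (V ^ 2 * (1 - y ^ 2) ^ 2))
    (hKR : KR = -(F2 / (2 * F0) - F1 ^ 2 / (4 * F0 ^ 2) - F1 * E1 / (4 * F0 * E0)) / E0) :
    2 * m * ((-(V * w) * (1 - y ^ 2) - 2 * y * (-(V * p) + I0)) * m) / (V ^ 2 * (1 - y ^ 2))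
      - 2 * m ^ 2 * (Vt + p * Yt) / (V ^ 3 * (1 - y ^ 2))
      + 2 * y * Yt * m ^ 2 / (V ^ 2 * (1 - y ^ 2) ^ 2)
      = -4 * KR * E0 := by
  subst hKR hF0 hF1 hF2 hE0 hE1 hVt hYt
  field_simp
  ring_nf

end Pool.Agent.N99.RF3
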