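import Mathlib
import Pool.Agent.H786.G.R_pool_sql_team_seeded_63374d34.N99.RF3.GaugeB
import Pool.Agent.H786.G.R_pool_sql_team_seeded_63374d34.N535.Defs

set_option autoImplicit false
open scoped ContDiff Topology Manifold
open Set

namespace Pool.Agent.N99.RF3

open Pool.Agent.N535

lemma exp_cutoff {B : ℝ} : ∃ ψ : ℝ → ℝ, ContDiff ℝ ∞ ψ ∧ HasCompactSupport ψ ∧
    ∀ z ∈ Icc (-B) B, ψ z = Real.exp z := by
  obtain ⟨ψ, h1, h2, h3⟩ := cutoff_mul (K := Icc (-B) B) (Ω := (univ : Set ℝ)) isCompact_Icc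
    isOpen_univ (subset_univ _) Real.contDiff_exp.contDiffOn
  exact ⟨ψ, h1, h2, fun z hz => (h3 z hz).self_of_nhds⟩

/-- data near one point, `t` fixed: `x`-derivatives -/
lemma xder {y : ℝ → ℝ} {V P M : ℝ → ℝ} {a b x : ℝ} {m1 : ℝ → ℝ} {w : ℝ → ℝ}
    (hx : x ∈ Ioo a b)
    (hy : ∀ z ∈ Ioo a b, HasDerivAt y (M z) z)
    (hM : ∀ z ∈ Ioo a b, HasDerivAt M (m1 z) z)
    (hV : ∀ z ∈ Ioo a b, HasDerivAt V (P z * M z) z)
    (hP : ∀ z ∈ Ioo a b, HasDerivAt P (w z * M z) z)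
    (hV0 : ∀ z ∈ Ioo a b, V z ≠ 0)
    (hu : ∀ z ∈ Ioo a b, 1 - y z ^ 2 ≠ 0)
    {F E : ℝ → ℝ} (hF : ∀ z ∈ Ioo a b, F z = (1 - y z ^ 2) / V z ^ 2)
    (hE : ∀ z ∈ Ioo a b, E z = M z ^ 2 / (V z ^ 2 * (1 - y z ^ 2))) :
    deriv F x = (-2 * y x / V x ^ 2 - 2 * (1 - y x ^ 2) * P x / V x ^ 3) * M x ∧
    deriv (deriv F) x = (-2 / V x ^ 2 + 8 * y x * P x / V x ^ 3
      - 2 * (1 - y x ^ 2) * w x / V x ^ 3 + 6 * (1 - y x ^ 2) * P x ^ 2 / V x ^ 4) * M x ^ 2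
      + (-2 * y x / V x ^ 2 - 2 * (1 - y x ^ 2) * P x / V x ^ 3) * m1 x ∧
    deriv E x = 2 * M x * m1 x / (V x ^ 2 * (1 - y x ^ 2))
      - 2 * M x ^ 3 * P x / (V x ^ 3 * (1 - y x ^ 2))
      + 2 * y x * M x ^ 3 / (V x ^ 2 * (1 - y x ^ 2) ^ 2) := by
  have hnh : ∀ z ∈ Ioo a b, Ioo a b ∈ 𝓝 z := fun z hz => isOpen_Ioo.mem_nhds hz
  have e1 : ∀ z ∈ Ioo a b, deriv F z =
      (-2 * y z / V z ^ 2 - 2 * (1 - y z ^ 2) * P z / V z ^ 3) * M z := by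
    intro z hz
    have h1 : HasDerivAt (fun z => (1 - y z ^ 2) / V z ^ 2) _ z :=
      (((hy z hz).pow 2).const_sub 1).div ((hV z hz).pow 2) (pow_ne_zero 2 (hV0 z hz))
    have h2 : F =ᶠ[𝓝 z] fun z => (1 - y z ^ 2) / V z ^ 2 := by
      filter_upwards [hnh z hz] with q hq using hF q hq
    rw [(h1.congr_of_eventuallyEq h2).deriv]
    have := hV0 z hz
    simp only [Pi.pow_apply]
    field_simp
    ring
  refine ⟨e1 x hx, ?_, ?_⟩
  · have h2 : deriv F =ᶠ[𝓝 x] fun z =>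
        (-2 * y z / V z ^ 2 - 2 * (1 - y z ^ 2) * P z / V z ^ 3) * M z := by
      filter_upwards [hnh x hx] with q hq using e1 q hq
    have h1 : HasDerivAt (fun z =>
        (-2 * y z / V z ^ 2 - 2 * (1 - y z ^ 2) * P z / V z ^ 3) * M z) _ x :=
      ((((hy x hx).const_mul (-2)).div ((hV x hx).pow 2) (pow_ne_zero 2 (hV0 x hx))).sub
        (((((((hy x hx).pow 2).const_sub 1).const_mul 2)).mul (hP x hx)).div ((hV x hx).pow 3)
          (pow_ne_zero 3 (hV0 x hx)))).mul (hM x hx)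
    rw [(h1.congr_of_eventuallyEq h2).deriv]
    have := hV0 x hx
    simp only [Pi.pow_apply, Pi.mul_apply, Pi.sub_apply, Pi.div_apply]
    field_simp
    ring
  · have h1 : HasDerivAt (fun z => M z ^ 2 / (V z ^ 2 * (1 - y z ^ 2))) _ x :=
      ((hM x hx).pow 2).div (((hV x hx).pow 2).mul (((hy x hx).pow 2).const_sub 1))
        (mul_ne_zero (pow_ne_zero 2 (hV0 x hx)) (hu x hx))
    have h2 : E =ᶠ[𝓝 x] fun z => M z ^ 2 / (V z ^ 2 * (1 - y z ^ 2)) := by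
      filter_upwards [hnh x hx] with q hq using hE q hq
    rw [(h1.congr_of_eventuallyEq h2).deriv]
    have := hV0 x hx
    have := hu x hx
    simp only [Pi.pow_apply]
    field_simp
    ring

end Pool.Agent.N99.RF3
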